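import Pool.Agent.U464.WyeGlobal

/-!
`MP_ed556a_co`: the region `𝒫` of limiting path and star densities of trees lies in the half-plane
`(1 - 2 p₁) / 10 ≤ p₂`, whose boundary line passes through the millipede points `m₁` and `m₂`.
-/

namespace Pool.Agent.Results.MP_ed556a_co.RegionBound

open Pool.Agent.Q117.YT

/-- Every pair `(p₁, p₂) ∈ 𝒫` of limiting path and star densities satisfies
`(1 - 2 p₁) / 10 ≤ p₂`. -/
theorem result : ∀ q ∈ PP, (1 - 2 * q.1) / 10 ≤ q.2 :=
  Pool.Agent.U464.Wye.region_bound

end Pool.Agent.Results.MP_ed556a_co.RegionBound
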