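import Pool.Agent.U464.WyeGlobal

/-!
`MP_ed556a_co`, question 2.  Every tree satisfies `Y ≤ 9 S + P + 6`, and the constant `6` is least
possible (a tree on eleven vertices attains equality).
-/

namespace Pool.Agent.Results.MP_ed556a_co.WyeInequality

open SimpleGraph Pool.Agent.Q117.YT

/-- parents in the extremal tree: the root `0` has the children `1, 2, 3, 4`, the vertex `1` is a
leaf, and each of `2, 3, 4` has two leaves as children -/
def par : Fin 11 → Fin 11 := ![0, 0, 0, 0, 0, 2, 2, 3, 3, 4, 4]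

/-- the extremal tree on eleven vertices -/
def T0 : SimpleGraph (Fin 11) where
  Adj i j := i ≠ j ∧ (par i = j ∨ par j = i)
  symm := ⟨fun _ _ h => ⟨h.1.symm, h.2.symm⟩⟩
  loopless := ⟨fun _ h => h.1 rfl⟩

instance : DecidableRel T0.Adj := fun i j => by unfold T0; infer_instance

theorem T0_adj : ∀ i : Fin 11, i ≠ 0 → T0.Adj i (par i) := by decide

theorem T0_par : ∀ i : Fin 11, par (par i) = 0 := by decide

theorem T0_connected : T0.Connected := by
  have h1 : ∀ i : Fin 11, T0.Reachable i (par i) := by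
    intro i
    by_cases hi : i = 0
    · subst hi; exact SimpleGraph.Reachable.refl _
    · exact (T0_adj i hi).reachable
  have h2 : ∀ i : Fin 11, T0.Reachable i 0 := by
    intro i
    have := (h1 i).trans (h1 (par i))
    rwa [T0_par] at this
  exact ⟨fun i j => (h2 i).trans (h2 j).symm⟩

theorem T0_isTree : T0.IsTree := by
  rw [SimpleGraph.isTree_iff_connected_and_card]
  refine ⟨T0_connected, ?_⟩
  have h3 : Nat.card T0.edgeSet = T0.edgeFinset.card := by
    rw [Nat.card_eq_fintype_card, ← Set.toFinset_card]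
    rfl
  have h4 := T0.sum_degrees_eq_twice_card_edges
  have h5 : ∑ v, T0.degree v = 20 := by decide +kernel
  rw [h3]
  simp
  omega

theorem T0_counts : cS T0 = 1 ∧ cP T0 = 12 ∧ cY T0 = 27 := by
  have hS := formula_S T0
  have hY := formula_Y T0 T0_isTree.isAcyclic
  have hP := formula_P T0 T0_isTree.isAcyclic
  have hS' : ∑ v, (av T0 v + 1) * av T0 v * (av T0 v - 1) * (av T0 v - 2) = 24 := by
    unfold av; decide +kernel
  have hY' : ∑ v, ∑ u ∈ T0.neighborFinset v, av T0 u * (av T0 v * (av T0 v - 1)) = 54 := by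
    unfold av; decide +kernel
  have hP' : ∑ v, ((∑ u ∈ T0.neighborFinset v, av T0 u) ^ 2
      - ∑ u ∈ T0.neighborFinset v, av T0 u ^ 2) = 24 := by
    unfold av; decide +kernel
  rw [hS'] at hS
  rw [hY'] at hY
  rw [hP'] at hP
  refine ⟨?_, ?_, ?_⟩ <;> omega

/-- The least constant `K ≥ 0` such that every finite tree `T` satisfies
`Y(T) ≤ 9 S(T) + P(T) + K` is `K = 6`. -/
theorem result :
    IsLeast {K : ℝ | 0 ≤ K ∧ ∀ (V : Type) [Fintype V] (T : SimpleGraph V), T.IsTree →
      (cY T : ℝ) ≤ 9 * cS T + cP T + K} 6 := by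
  obtain ⟨hS, hP, hY⟩ := T0_counts
  refine ⟨⟨?_, ?_⟩, ?_⟩
  · norm_num
  · intro V _ T hT
    have := Pool.Agent.U464.Wye.wye_bound T hT
    exact_mod_cast this
  · intro K hK
    have := hK.2 (Fin 11) T0 T0_isTree
    rw [hS, hP, hY] at this
    push_cast at this
    linarith

end Pool.Agent.Results.MP_ed556a_co.WyeInequality
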